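import Mathlib
import Pool.Agent.R168.NewtonDefs
import Pool.Agent.R168.Pyr

set_option autoImplicit false

/-!
# `N*(P^d(h)) = N*(C^(d-1)) + 1` fails in every dimension

A copy of `P = P^d(h)` shifted a little downwards covers a neighbourhood of every point of `P`
outside the base, so `N*(P) = 2` as soon as the base `C^(d-1)` fits by an isometry into the interior
of `P`. This is possible for all tall pyramids, because `C^(d-2)` fits into the interior of
`C^(d-1)`. On the other hand `N*(C^(d-1)) + 1 ≥ 3`.
-/

namespace Pool.Agent.Results.MP_5875c4_co.TallPyramids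

open Pool.Agent.R168.Newton

/-- In every dimension `d = k + 1 ≥ 2` all sufficiently tall pyramids `P^d(h)` have Newton covering
number `2`, while `N*(C^(d-1)) + 1 ≥ 3`; so the identity `N*(P^d(h)) = N*(C^(d-1)) + 1` fails for
all large `h`, in every dimension `d ≥ 2`. -/
theorem result (k : ℕ) (hk : 1 ≤ k) :
    ∃ h0 : ℝ, 0 < h0 ∧ ∀ h : ℝ, h0 ≤ h →
      newton (pyramid k h) = 2 ∧ 3 ≤ newton (cube k) + 1 ∧
        newton (pyramid k h) ≠ newton (cube k) + 1 := by
  obtain ⟨h0, hh0, htall⟩ := newton_tall hk
  have h2 := two_le_newton_cube hk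
  refine ⟨h0, hh0, fun h hh => ⟨htall h hh, by omega, ?_⟩⟩
  rw [htall h hh]
  omega

end Pool.Agent.Results.MP_5875c4_co.TallPyramids
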